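import Mathlib

/-!
# A latin square with a `5`-multiplex but no `5`-plex

The latin square of order six below has a `3`-plex and a `2`-plex, whose sum is a `5`-multiplex, but
it has no transversal; the cells outside a `5`-plex would form a transversal.
-/

set_option autoImplicit false

namespace Pool.Agent.Results.MP_a6ecd6_co.MultiplexWithoutPlex

/-- `Q` is a latin hypercube of dimension `d` and order `n`: on every line all symbols occur exactly
once. -/
def IsLatinHypercube {d n : ℕ} (Q : (Fin d → Fin n) → Fin n) : Prop :=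
  ∀ (x : Fin d → Fin n) (i : Fin d), Function.Bijective fun a : Fin n => Q (Function.update x i a)

/-- The multiset `K` of cells is a `k`-multiplex of `Q`: it has `k n` elements, every hyperplane
contains exactly `k` of them and every symbol stands in exactly `k` of them, counted with
multiplicity. -/
def IsMultiplex {d n : ℕ} (Q : (Fin d → Fin n) → Fin n) (k : ℕ) (K : Multiset (Fin d → Fin n)) :
    Prop :=
  K.card = k * n ∧ (∀ (i : Fin d) (a : Fin n), K.countP (fun x => x i = a) = k) ∧
    ∀ s : Fin n, K.countP (fun x => Q x = s) = k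

/-- A `k`-plex is a `k`-multiplex without repeated cells. -/
def IsPlex {d n : ℕ} (Q : (Fin d → Fin n) → Fin n) (k : ℕ) (K : Multiset (Fin d → Fin n)) : Prop :=
  IsMultiplex Q k K ∧ K.Nodup

/-- the table of the latin square -/
def T : Fin 6 → Fin 6 → Fin 6 :=
  ![![0, 1, 2, 3, 4, 5], ![1, 0, 3, 2, 5, 4], ![2, 4, 0, 5, 1, 3], ![3, 5, 1, 4, 2, 0],
    ![4, 3, 5, 1, 0, 2], ![5, 2, 4, 0, 3, 1]]

/-- the latin square as a hypercube of dimension two -/
def Q : (Fin 2 → Fin 6) → Fin 6 := fun x => T (x 0) (x 1)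

theorem isLatin : IsLatinHypercube Q := by
  have h0 : ∀ b : Fin 6, Function.Bijective fun a : Fin 6 => T a b := by decide +kernel
  have h1 : ∀ a : Fin 6, Function.Bijective fun b : Fin 6 => T a b := by decide +kernel
  intro x i
  fin_cases i
  · simpa [Q] using h0 (x 1)
  · simpa [Q] using h1 (x 0)

/-- the `5`-multiplex: the sum of a `3`-plex and a `2`-plex -/
def K : Multiset (Fin 2 → Fin 6) :=
  (([(0, 0), (0, 1), (0, 2), (1, 0), (1, 2), (1, 4), (2, 1), (2, 3), (2, 5), (3, 1), (3, 4), (3, 5),
    (4, 0), (4, 3), (4, 5), (5, 2), (5, 3), (5, 4),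
    (0, 0), (0, 1), (1, 0), (1, 1), (2, 3), (2, 5), (3, 3), (3, 4), (4, 2), (4, 5), (5, 2), (5, 4)] :
      List (Fin 6 × Fin 6)).map fun p => ![p.1, p.2] : List (Fin 2 → Fin 6))

theorem isMultiplex_K : IsMultiplex Q 5 K := by
  refine ⟨by decide +kernel, ?_, ?_⟩
  · intro i a
    revert i a
    decide +kernel
  · decide +kernel

theorem no_transversal : ∀ σ : Equiv.Perm (Fin 6), ¬ Function.Injective fun a => T a (σ a) := by
  decide +kernel

theorem no_plex (P : Multiset (Fin 2 → Fin 6)) : ¬ IsPlex Q 5 P := by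
  classical
  rintro ⟨⟨-, hline, hsym⟩, hnd⟩
  -- the complement of `P`
  set F : Finset (Fin 2 → Fin 6) := ⟨P, hnd⟩ with hF
  have hcount : ∀ (p : (Fin 2 → Fin 6) → Prop) [DecidablePred p],
      P.countP p = 5 → (Finset.univ.filter p).card = 6 → (Fᶜ.filter p).card = 1 := by
    intro p _ h5 h6
    have h1 : (F.filter p).card = 5 := by
      rw [Finset.card_def, Finset.filter_val, ← Multiset.countP_eq_card_filter]
      exact h5
    have h2 : (Fᶜ.filter p).card + (F.filter p).card = (Finset.univ.filter p).card := by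
      rw [← Finset.card_union_of_disjoint, ← Finset.filter_union]
      · congr 2
        ext x
        by_cases hx : x ∈ F <;> simp [hx]
      · rw [Finset.disjoint_left]
        intro x hx hx'
        simp only [Finset.mem_filter, Finset.mem_compl] at hx hx'
        exact hx.1 hx'.1
    omega
  have hrow : ∀ a : Fin 6, (Fᶜ.filter fun x => x 0 = a).card = 1 := fun a =>
    hcount _ (hline 0 a) (by revert a; decide +kernel)
  have hcol : ∀ a : Fin 6, (Fᶜ.filter fun x => x 1 = a).card = 1 := fun a =>
    hcount _ (hline 1 a) (by revert a; decide +kernel)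
  have hsy : ∀ a : Fin 6, (Fᶜ.filter fun x => Q x = a).card = 1 := fun a =>
    hcount _ (hsym a) (by revert a; decide +kernel)
  have hex : ∀ a : Fin 6, ∃ x : Fin 2 → Fin 6, x ∈ Fᶜ ∧ x 0 = a := by
    intro a
    obtain ⟨x, hx⟩ := Finset.card_eq_one.1 (hrow a)
    have : x ∈ Fᶜ.filter fun x => x 0 = a := by rw [hx]; exact Finset.mem_singleton_self x
    exact ⟨x, (Finset.mem_filter.1 this).1, (Finset.mem_filter.1 this).2⟩
  choose c hc hc0 using hex
  have huniq : ∀ (f : (Fin 2 → Fin 6) → Fin 6) (b : Fin 6), (Fᶜ.filter fun x => f x = b).card = 1 →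
      ∀ a a' : Fin 6, f (c a) = b → f (c a') = b → a = a' := by
    intro f b h1 a a' ha ha'
    have : c a = c a' := Finset.card_le_one.1 h1.le _ (Finset.mem_filter.2 ⟨hc a, ha⟩) _
      (Finset.mem_filter.2 ⟨hc a', ha'⟩)
    rw [← hc0 a, ← hc0 a', this]
  have hinj : Function.Injective fun a => c a 1 := fun a a' h =>
    huniq (fun x => x 1) (c a' 1) (hcol _) a a' h rfl
  have hT : ∀ a, T a (c a 1) = Q (c a) := fun a => by
    unfold Q
    rw [hc0 a]
  refine no_transversal (Equiv.ofBijective _ (Finite.injective_iff_bijective.1 hinj)) ?_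
  intro a a' h
  simp only [Equiv.ofBijective_apply, hT] at h
  exact huniq Q (Q (c a')) (hsy _) a a' h rfl

/-- Q1 has a negative answer: the latin square `Q` of order six has a `5`-multiplex but no
`5`-plex. -/
theorem result : ¬ ∀ (d n k : ℕ), 2 ≤ d → 1 ≤ n → 1 ≤ k → k ≤ n ^ (d - 1) →
    ∀ Q : (Fin d → Fin n) → Fin n, IsLatinHypercube Q →
      (∃ K, IsMultiplex Q k K) → ∃ K, IsPlex Q k K := by
  intro h
  obtain ⟨P, hP⟩ := h 2 6 5 le_rfl (by norm_num) (by norm_num) (by norm_num) Q isLatin ⟨K, isMultiplex_K⟩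
  exact no_plex P hP

end Pool.Agent.Results.MP_a6ecd6_co.MultiplexWithoutPlex
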